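import Pool.Agent.W223.HZ.Stms

set_option autoImplicit false

/-!
# Points on a relation
-/

namespace Pool.Agent.W462.HZ

open Polynomial Pool.Agent.W223.HZ

lemma eval_GP (a b c d₁ : ℤ) (A B : ℤ[X]) (τ p q g : ℤ) (hA : A.eval τ = g * q)
    (hB : B.eval τ = -(g * p))
    (h1 : a * p ^ 3 + 3 * b * p ^ 2 * q + 3 * c * p * q ^ 2 + (d₁ + τ) * q ^ 3 = 1) :
    g ^ 3 = (GP a b c d₁ A B).eval τ := by
  unfold GP
  simp only [eval_add, eval_sub, eval_mul, eval_neg, eval_pow, eval_C, eval_X, eval_ofNat, hA, hB]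
  linear_combination (-(g ^ 3)) * h1

lemma exists_g (a b c d₁ : ℤ) (hcube : ∀ e : ℤ, e ^ 3 ≠ a) (A B : ℤ[X]) (τ p q : ℤ)
    (h0 : p * A.eval τ + q * B.eval τ = 0)
    (h1 : a * p ^ 3 + 3 * b * p ^ 2 * q + 3 * c * p * q ^ 2 + (d₁ + τ) * q ^ 3 = 1) :
    ∃ g : ℤ, g ^ 3 = (GP a b c d₁ A B).eval τ ∧ |g| ≤ |A.eval τ| ∧
      (g = 0 → A.eval τ = 0 ∧ B.eval τ = 0) := by
  have hq : q ≠ 0 := by
    rintro rfl
    have h2 : a * p ^ 3 = 1 := by linarith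
    have h3 : IsUnit p := by
      have : p ∣ 1 := ⟨a * p ^ 2, by rw [← h2]; ring⟩
      exact isUnit_of_dvd_one this
    rcases Int.isUnit_iff.1 h3 with h4 | h4
    · apply hcube 1
      rw [h4] at h2
      linarith
    · apply hcube (-1)
      rw [h4] at h2
      linarith
  have hcop : IsCoprime q p := by
    refine ⟨(d₁ + τ) * q ^ 2, a * p ^ 2 + 3 * b * p * q + 3 * c * q ^ 2, ?_⟩
    linear_combination h1
  have hdvd : q ∣ p * A.eval τ := ⟨-B.eval τ, by linear_combination h0⟩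
  obtain ⟨g, hg⟩ := hcop.dvd_of_dvd_mul_left hdvd
  have hA : A.eval τ = g * q := by rw [hg]; ring
  have hB : B.eval τ = -(g * p) := by
    have h5 : q * (B.eval τ + g * p) = 0 := by
      rw [hA] at h0
      linear_combination h0
    rcases mul_eq_zero.1 h5 with h6 | h6
    · exact absurd h6 hq
    · linarith
  refine ⟨g, eval_GP a b c d₁ A B τ p q g hA hB h1, ?_, ?_⟩
  · rw [hA, abs_mul]
    have h7 : 1 ≤ |q| := Int.one_le_abs hq
    nlinarith [abs_nonneg g]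
  · intro h8
    rw [hA, hB, h8]
    simp

lemma eval_bound (A : ℤ[X]) (m : ℕ) (L H : ℝ) (hL : 1 ≤ L) (hH : 1 ≤ H) (hA : A.natDegree < m)
    (hc : ∀ k, |(A.coeff k : ℝ)| ≤ H) (τ : ℤ) (hτ : |(τ : ℝ)| ≤ L) :
    |((A.eval τ : ℤ) : ℝ)| ≤ m * H * L ^ m := by
  rw [Polynomial.eval_eq_sum_range' hA]
  push_cast
  refine (Finset.abs_sum_le_sum_abs _ _).trans ?_
  have h1 : ∀ i ∈ Finset.range m, |(A.coeff i : ℝ) * (τ : ℝ) ^ i| ≤ H * L ^ m := by
    intro i hi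
    rw [abs_mul, abs_pow]
    have h2 : |(τ : ℝ)| ^ i ≤ L ^ m :=
      (pow_le_pow_left₀ (abs_nonneg _) hτ i).trans
        (pow_le_pow_right₀ hL (Finset.mem_range.1 hi).le)
    exact mul_le_mul (hc i) h2 (by positivity) (by linarith)
  refine (Finset.sum_le_sum h1).trans ?_
  rw [Finset.sum_const, Finset.card_range, nsmul_eq_mul]
  apply le_of_eq
  ring

lemma card_roots_le (A : ℤ[X]) (hA : A ≠ 0) (m : ℕ) (hm : A.natDegree < m) (S : Finset ℤ)
    (hS : ∀ τ ∈ S, A.eval τ = 0) : S.card ≤ m := by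
  have h1 : S ⊆ A.roots.toFinset := by
    intro τ hτ
    rw [Multiset.mem_toFinset, mem_roots hA]
    exact hS τ hτ
  calc S.card ≤ A.roots.toFinset.card := Finset.card_le_card h1
    _ ≤ A.roots.card := Multiset.toFinset_card_le _
    _ ≤ A.natDegree := card_roots' A
    _ ≤ m := hm.le

lemma ineq (L Λ : ℝ) (hL : 1 ≤ L) (hΛ : 1 ≤ Λ) (p m' : ℕ) (hm' : 3 ≤ m') (hΛm : Λ ≤ m')
    (hp : 16 * √L < p) :
    (2 * (m' : ℝ)) ^ 2 * Real.exp Λ * L ^ (m' - 1) < (p : ℝ) ^ (2 * m' - 1) := by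
  have hsL : 1 ≤ √L := Real.one_le_sqrt.2 hL
  have h1 : (16 * √L) ^ (2 * m' - 1) < (p : ℝ) ^ (2 * m' - 1) :=
    pow_lt_pow_left₀ hp (by positivity) (by omega)
  refine lt_of_le_of_lt ?_ h1
  rw [mul_pow 16 (√L)]
  have h2 : L ^ (m' - 1) ≤ √L ^ (2 * m' - 1) := by
    have e1 : 2 * m' - 1 = 2 * (m' - 1) + 1 := by omega
    rw [e1, pow_succ, pow_mul, Real.sq_sqrt (by linarith)]
    exact le_mul_of_one_le_right (by positivity) hsL
  have h3 : (2 * (m' : ℝ)) ^ 2 ≤ 16 ^ m' := by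
    have h4 : 2 * m' < 2 ^ (2 * m') := Nat.lt_two_pow_self
    have h5 : (2 * (m' : ℝ)) ≤ 2 ^ (2 * m') := by exact_mod_cast h4.le
    calc (2 * (m' : ℝ)) ^ 2 ≤ (2 ^ (2 * m')) ^ 2 := pow_le_pow_left₀ (by positivity) h5 2
      _ = 16 ^ m' := by
        rw [← pow_mul, show 2 * m' * 2 = 4 * m' by ring, pow_mul]
        norm_num
  have h6 : Real.exp Λ ≤ 4 ^ m' := by
    calc Real.exp Λ ≤ Real.exp m' := Real.exp_le_exp.2 hΛm
      _ = Real.exp 1 ^ m' := by rw [← Real.exp_nat_mul, mul_one]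
      _ ≤ 4 ^ m' := pow_le_pow_left₀ (Real.exp_pos _).le
        (by linarith [Real.exp_one_lt_d9]) _
  have h7 : (16 : ℝ) ^ m' * 4 ^ m' ≤ 16 ^ (2 * m' - 1) := by
    rw [← mul_pow]
    have e1 : ((16 : ℝ) * 4) ^ m' = 2 ^ (6 * m') := by
      rw [pow_mul]; norm_num
    have e2 : (16 : ℝ) ^ (2 * m' - 1) = 2 ^ (4 * (2 * m' - 1)) := by
      rw [pow_mul]; norm_num
    rw [e1, e2]
    exact pow_le_pow_right₀ (by norm_num) (by omega)
  calc (2 * (m' : ℝ)) ^ 2 * Real.exp Λ * L ^ (m' - 1)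
      ≤ 16 ^ m' * 4 ^ m' * √L ^ (2 * m' - 1) := by gcongr
    _ ≤ 16 ^ (2 * m' - 1) * √L ^ (2 * m' - 1) := by gcongr

lemma card_U (a b c d₁ : ℤ) (A B : ℤ[X]) (p N : ℕ) (hp : p.Prime) (U : Finset ℤ) (g : ℤ → ℤ)
    (hg : ∀ τ ∈ U, g τ ^ 3 = (GP a b c d₁ A B).eval τ)
    (hN : ∀ F ⊆ U, (∀ τ ∈ F, ∀ τ' ∈ F, (p : ℤ) ∣ τ - τ' ∧ (p : ℤ) ∣ g τ - g τ') → F.card ≤ N) :
    U.card ≤ N * (3 * p) := by
  have : Fact p.Prime := ⟨hp⟩
  let f : ℤ → ZMod p × ZMod p := fun τ => ((τ : ZMod p), (g τ : ZMod p))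
  have h1 : U.card ≤ N * (U.image f).card := by
    apply Finset.card_le_mul_card_image
    intro xy _
    apply hN _ (Finset.filter_subset _ _)
    intro τ hτ τ' hτ'
    rw [Finset.mem_filter] at hτ hτ'
    have h2 : f τ = f τ' := hτ.2.trans hτ'.2.symm
    have h3 : ((τ : ℤ) : ZMod p) = (τ' : ZMod p) := congrArg Prod.fst h2
    have h4 : ((g τ : ℤ) : ZMod p) = (g τ' : ZMod p) := congrArg Prod.snd h2
    constructor
    · exact (ZMod.intCast_eq_intCast_iff_dvd_sub _ _ _).1 h3.symm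
    · exact (ZMod.intCast_eq_intCast_iff_dvd_sub _ _ _).1 h4.symm
  have h5 : (U.image f).card ≤ 3 * p := by
    have h6 : (U.image f).card ≤ 3 * ((U.image f).image Prod.fst).card := by
      apply Finset.card_le_mul_card_image
      intro x _
      set G : (ZMod p)[X] := (GP a b c d₁ A B).map (Int.castRingHom (ZMod p)) with hG
      have h7 : ((U.image f).filter fun xy => xy.1 = x).card ≤
          (nthRoots 3 (G.eval x)).toFinset.card := by
        apply Finset.card_le_card_of_injOn Prod.snd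
        · intro xy hxy
          rw [Finset.mem_coe, Finset.mem_filter, Finset.mem_image] at hxy
          obtain ⟨⟨τ, hτ, rfl⟩, hx⟩ := hxy
          rw [Finset.mem_coe, Multiset.mem_toFinset, mem_nthRoots (by norm_num)]
          rw [← hx]
          show ((g τ : ℤ) : ZMod p) ^ 3 = G.eval ((τ : ℤ) : ZMod p)
          rw [hG, Polynomial.eval_intCast_map, Int.cast_id, ← hg τ hτ]
          simp
        · intro xy hxy xy' hxy' h
          rw [Finset.mem_coe, Finset.mem_filter] at hxy hxy'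
          exact Prod.ext (hxy.2.trans hxy'.2.symm) h
      exact h7.trans ((Multiset.toFinset_card_le _).trans (card_nthRoots 3 _))
    refine h6.trans (Nat.mul_le_mul_left 3 ?_)
    calc ((U.image f).image Prod.fst).card ≤ (Finset.univ : Finset (ZMod p)).card :=
          Finset.card_le_card (Finset.subset_univ _)
      _ = p := by rw [Finset.card_univ, ZMod.card]
  exact h1.trans (Nat.mul_le_mul_left N h5)

/-- CUB -/
theorem t (hC : StmtCLS) (hP : StmtPPR) : StmtCUB := by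
  intro a b c d₁ ha hcube A B m hAB hA hB L H Λ hL hH hΛ hmΛ hexp hcA hcB 𝒯 hτL hpq
  -- the function g
  have hex : ∀ τ : ℤ, ∃ g : ℤ, τ ∈ 𝒯 → g ^ 3 = (GP a b c d₁ A B).eval τ ∧ |g| ≤ |A.eval τ| ∧
      (g = 0 → A.eval τ = 0 ∧ B.eval τ = 0) := by
    intro τ
    by_cases hτ : τ ∈ 𝒯
    · obtain ⟨p, q, h0, h1⟩ := hpq τ hτ
      obtain ⟨g, hg⟩ := exists_g a b c d₁ hcube A B τ p q h0 h1
      exact ⟨g, fun _ => hg⟩
    · exact ⟨0, fun h => absurd h hτ⟩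
  choose g hg using hex
  have hgb : ∀ τ ∈ 𝒯, |(g τ : ℝ)| ≤ Real.exp Λ := by
    intro τ hτ
    have h1 : |(g τ : ℝ)| ≤ |((A.eval τ : ℤ) : ℝ)| := by exact_mod_cast (hg τ hτ).2.1
    exact h1.trans ((eval_bound A m L H hL hH hA hcA τ (hτL τ hτ)).trans hexp)
  -- the zeros
  have hzero : (𝒯.filter fun τ => g τ = 0).card ≤ m := by
    rcases hAB with h | h
    · apply card_roots_le A h m hA
      intro τ hτ
      rw [Finset.mem_filter] at hτ
      exact ((hg τ hτ.1).2.2 hτ.2).1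
    · apply card_roots_le B h m hB
      intro τ hτ
      rw [Finset.mem_filter] at hτ
      exact ((hg τ hτ.1).2.2 hτ.2).2
  obtain ⟨p, hp, hp3, hp16, hpup, hcard⟩ := hP L Λ hL hΛ (𝒯.filter fun τ => ¬ g τ = 0) g
    (fun τ hτ => (Finset.mem_filter.1 hτ).2)
    (fun τ hτ => hgb τ (Finset.mem_filter.1 hτ).1)
  set U := (𝒯.filter fun τ => ¬ g τ = 0).filter fun τ => ¬ (p : ℤ) ∣ g τ with hU
  have hU1 : ∀ τ ∈ U, τ ∈ 𝒯 ∧ ¬ (p : ℤ) ∣ g τ := by
    intro τ hτ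
    rw [hU, Finset.mem_filter, Finset.mem_filter] at hτ
    exact ⟨hτ.1.1, hτ.2⟩
  set m' : ℕ := ⌈Λ⌉₊ + 2 with hm'
  have hm'3 : 3 ≤ m' := by
    have : 0 < ⌈Λ⌉₊ := Nat.ceil_pos.2 (by linarith)
    omega
  have hΛm : Λ ≤ m' := by
    have h1 := Nat.le_ceil Λ
    rw [hm']
    push_cast
    linarith
  have hm'up : (m' : ℝ) ≤ Λ + 3 := by
    have h1 := Nat.ceil_lt_add_one (a := Λ) (by linarith)
    rw [hm']
    push_cast
    linarith
  have hUc : U.card ≤ (3 * m' + 3 * m) * (3 * p) := by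
    apply card_U a b c d₁ A B p _ hp U g (fun τ hτ => (hg τ (hU1 τ hτ).1).1)
    intro F hF hcong
    exact hC a b c d₁ ha hcube A B m hAB hA hB p m' hp hp3 (by omega) L (Real.exp Λ) hL
      (Real.one_le_exp (by linarith)) (ineq L Λ hL hΛ p m' hm'3 hΛm hp16) F g
      (fun τ hτ => (hg τ (hU1 τ (hF hτ)).1).1)
      (fun τ hτ => hτL τ (hU1 τ (hF hτ)).1) (fun τ hτ => hgb τ (hU1 τ (hF hτ)).1)
      (fun τ hτ => (hU1 τ (hF hτ)).2) hcong
  have htot : 𝒯.card ≤ m + 2 * ((3 * m' + 3 * m) * (3 * p)) := by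
    have h1 := Finset.card_filter_add_card_filter_not (s := 𝒯) (fun τ => g τ = 0)
    omega
  have htotR : (𝒯.card : ℝ) ≤ m + 2 * ((3 * m' + 3 * m) * (3 * p)) := by exact_mod_cast htot
  have hsL : 1 ≤ √L := Real.one_le_sqrt.2 hL
  set ℓ := Real.log (120 * √L * Λ) with hℓ
  have hℓ1 : 1 ≤ ℓ := by
    rw [hℓ, Real.le_log_iff_exp_le (by positivity)]
    have h1 : Real.exp 1 ≤ 3 := by linarith [Real.exp_one_lt_d9]
    nlinarith [mul_le_mul hsL hΛ zero_le_one (by positivity : 0 ≤ √L)]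
  have hp0 : (0 : ℝ) ≤ p := Nat.cast_nonneg _
  have h15 : (3 * (m' : ℝ) + 3 * m) ≤ 15 * Λ := by linarith
  have h1 : (𝒯.card : ℝ) ≤ Λ + 2 * ((15 * Λ) * (3 * (1920 * √L * Λ * ℓ))) := by
    refine htotR.trans ?_
    gcongr
  refine h1.trans ?_
  have h2 : Λ ≤ √L * Λ ^ 2 * ℓ := by
    have h3 : 1 ≤ √L * Λ * ℓ := by
      have h4 : 1 ≤ √L * Λ := by nlinarith
      nlinarith
    calc Λ = Λ * 1 := (mul_one _).symm
      _ ≤ Λ * (√L * Λ * ℓ) := by gcongr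
      _ = √L * Λ ^ 2 * ℓ := by ring
  have h5 : 0 ≤ √L * Λ ^ 2 * ℓ := by positivity
  nlinarith

end Pool.Agent.W462.HZ
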